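import Mathlib

set_option autoImplicit false

/-! Exact linearisation of the law `(g-1)([g,h]-1)^2 = 0` on square-zero letters. -/

namespace Pool.Agent.Lib.MP_107960_al.H17

variable {A : Type*} [Ring A]

/-- the bracket -/
def bk (x y : A) : A := x * y - y * x

/-- `S(a,b;c,d)` -/
def SS (a b c d : A) : A := bk a c * bk b d + bk b d * bk a c + bk a d * bk b c + bk b c * bk a d

/-- the polarised law -/
def FF (x1 x2 x3 y1 y2 : A) : A := x1 * SS x2 x3 y1 y2 + x2 * SS x1 x3 y1 y2 + x3 * SS x1 x2 y1 y2

/-- the `S`-bimodule generated by `u` -/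
def II (S : Subring A) (u : A) : AddSubgroup A :=
  AddSubgroup.closure {x | ∃ a ∈ S, ∃ b ∈ S, x = a * u * b}

section

variable {S : Subring A} {u : A}

theorem II_gen {a b : A} (ha : a ∈ S) (hb : b ∈ S) : a * u * b ∈ II S u :=
  AddSubgroup.subset_closure ⟨a, ha, b, hb, rfl⟩

theorem II_self : u ∈ II S u := by
  have := II_gen (S := S) (u := u) S.one_mem S.one_mem
  simpa using this

theorem II_left {a x : A} (ha : a ∈ S) (hx : x ∈ II S u) : a * x ∈ II S u := by
  unfold II at hx
  induction hx using AddSubgroup.closure_induction with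
  | mem x hx =>
    obtain ⟨c, hc, b, hb, rfl⟩ := hx
    have := II_gen (S := S) (u := u) (S.mul_mem ha hc) hb
    simpa only [mul_assoc] using this
  | zero => rw [mul_zero]; exact (II S u).zero_mem
  | add x y _ _ ihx ihy => rw [mul_add]; exact (II S u).add_mem ihx ihy
  | neg x _ ih => rw [mul_neg]; exact (II S u).neg_mem ih

theorem II_right {a x : A} (ha : a ∈ S) (hx : x ∈ II S u) : x * a ∈ II S u := by
  unfold II at hx
  induction hx using AddSubgroup.closure_induction with
  | mem x hx =>
    obtain ⟨c, hc, b, hb, rfl⟩ := hx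
    have := II_gen (S := S) (u := u) hc (S.mul_mem hb ha)
    simpa only [mul_assoc] using this
  | zero => rw [zero_mul]; exact (II S u).zero_mem
  | add x y _ _ ihx ihy => rw [add_mul]; exact (II S u).add_mem ihx ihy
  | neg x _ ih => rw [neg_mul]; exact (II S u).neg_mem ih

theorem II_le (hu : u ∈ S) {x : A} (hx : x ∈ II S u) : x ∈ S := by
  unfold II at hx
  induction hx using AddSubgroup.closure_induction with
  | mem x hx =>
    obtain ⟨c, hc, b, hb, rfl⟩ := hx
    exact S.mul_mem (S.mul_mem hc hu) hb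
  | zero => exact S.zero_mem
  | add x y _ _ ihx ihy => exact S.add_mem ihx ihy
  | neg x _ ih => exact S.neg_mem ih

/-- products of two elements of the bimodule vanish -/
theorem II_mul (h : ∀ a ∈ S, u * a * u = 0) {x y : A} (hx : x ∈ II S u) (hy : y ∈ II S u) :
    x * y = 0 := by
  unfold II at hx hy
  induction hx using AddSubgroup.closure_induction with
  | mem x hx =>
    obtain ⟨c, hc, b, hb, rfl⟩ := hx
    induction hy using AddSubgroup.closure_induction with
    | mem y hy =>
      obtain ⟨c', hc', b', hb', rfl⟩ := hy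
      have : c * u * b * (c' * u * b') = c * (u * (b * c') * u) * b' := by noncomm_ring
      rw [this, h _ (S.mul_mem hb hc')]; simp
    | zero => rw [mul_zero]
    | add x y _ _ ihx ihy => rw [mul_add, ihx, ihy, add_zero]
    | neg x _ ih => rw [mul_neg, ih, neg_zero]
  | zero => rw [zero_mul]
  | add x y _ _ ihx ihy => rw [add_mul, ihx, ihy, add_zero]
  | neg x _ ih => rw [neg_mul, ih, neg_zero]

/-- products `x a y` of two elements of the bimodule vanish -/
theorem II_mul3 (h : ∀ a ∈ S, u * a * u = 0) {x y a : A} (ha : a ∈ S) (hx : x ∈ II S u)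
    (hy : y ∈ II S u) : x * (a * y) = 0 :=
  II_mul h hx (II_left ha hy)

end

variable {G : Type*} [Group G]

/-- `[x,y] = x⁻¹ y⁻¹ x y` -/
def cm (x y : G) : G := x⁻¹ * y⁻¹ * x * y

/-- Letters: `u` with `1 + u = π g` and `u a u = 0`. -/
structure Letter (S : Subring A) (π : G →* A) (u : A) : Prop where
  gr : ∃ g : G, π g = 1 + u
  sq : ∀ a ∈ S, u * a * u = 0

section

variable {S : Subring A} {π : G →* A}

theorem Letter.mem (hS : ∀ g, π g ∈ S) {u : A} (h : Letter S π u) : u ∈ S := by
  obtain ⟨g, hg⟩ := h.gr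
  have : u = π g - 1 := by rw [hg]; abel
  rw [this]; exact S.sub_mem (hS g) S.one_mem

theorem Letter.uu {u : A} (h : Letter S π u) : u * u = 0 := by
  have := h.sq 1 S.one_mem
  simpa using this

theorem Letter.inv {u : A} (h : Letter S π u) {g : G} (hg : π g = 1 + u) : π g⁻¹ = 1 - u := by
  have h1 : π g⁻¹ * π g = 1 := by rw [← map_mul, inv_mul_cancel, map_one]
  have h2 : π g * (1 - u) = 1 := by
    rw [hg]
    have : (1 + u) * (1 - u) = 1 - u * u := by noncomm_ring
    rw [this, h.uu, sub_zero]
  calc π g⁻¹ = π g⁻¹ * (π g * (1 - u)) := by rw [h2, mul_one]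
    _ = (π g⁻¹ * π g) * (1 - u) := by rw [mul_assoc]
    _ = 1 - u := by rw [h1, one_mul]

/-- letters are closed under the bracket -/
theorem Letter.bk (hS : ∀ g, π g ∈ S) {u v : A} (hu : Letter S π u) (hv : Letter S π v) :
    Letter S π (bk u v) := by
  obtain ⟨g, hg⟩ := hu.gr
  obtain ⟨k, hk⟩ := hv.gr
  have uS := hu.mem hS
  have vS := hv.mem hS
  have uu := hu.uu
  have vv := hv.uu
  have uvu := hu.sq v vS
  have vuv := hv.sq u uS
  refine ⟨⟨cm g k, ?_⟩, ?_⟩
  · unfold cm
    rw [map_mul, map_mul, map_mul, hu.inv hg, hv.inv hk, hg, hk]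
    have : (1 - u) * (1 - v) * (1 + u) * (1 + v) = 1 + (u * v - v * u)
        - u * u - v * v - u * u * v + v * v * u * 0 - (v * u * v) + u * v * u + u * (v * v)
        + u * v * u * v := by noncomm_ring
    rw [this, mul_zero, uu, vv, vuv, uvu]
    simp [Pool.Agent.Lib.MP_107960_al.H17.bk]
  · intro a ha
    have h1 := hu.sq (v * a) (S.mul_mem vS ha)
    have h2 := hv.sq a ha
    have h3 := hu.sq a ha
    have h4 := hv.sq (u * a) (S.mul_mem uS ha)
    have : (u * v - v * u) * a * (u * v - v * u)
        = (u * (v * a) * u) * v - u * (v * a * v) * u - v * (u * a * u) * v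
          + (v * (u * a) * v) * u := by noncomm_ring
    show (u * v - v * u) * a * (u * v - v * u) = 0
    rw [this, h1, h2, h3, h4]; simp

end

end Pool.Agent.Lib.MP_107960_al.H17
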