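import Pool.Agent.Lib.MP_107960_al.H17.Exact

set_option autoImplicit false

namespace Pool.Agent.Lib.MP_107960_al.H17

variable {A : Type*} [Ring A] {G : Type*} [Group G] {S : Subring A} {π : G →* A}

/-- the linearised law -/
def LinLaw (π : G →* A) : Prop :=
  ∀ g h : G, (π g - 1) * ((π (cm g h) - 1) * (π (cm g h) - 1)) = 0

/-- the conjugate letter `u^h` -/
def cv (π : G →* A) (u : A) (h : G) : A := π h⁻¹ * u * π h

theorem cv_mem (hS : ∀ g, π g ∈ S) (u : A) (h : G) : cv π u h ∈ II S u :=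
  II_gen (hS _) (hS _)

/-- `[g k, h] = [g,h] + δ` with `δ = c v - u c` -/
theorem step_cm (hS : ∀ g, π g ∈ S) {u : A} (hu : Letter S π u) {k : G} (hk : π k = 1 + u)
    (g h : G) :
    π (cm (g * k) h) - 1 = (π (cm g h) - 1)
      + (π (cm g h) * cv π u h - u * π (cm g h)) := by
  have e : cm (g * k) h = k⁻¹ * cm g h * (h⁻¹ * k * h) := by
    unfold cm; group
  have hh : π h⁻¹ * π h = 1 := by rw [← map_mul, inv_mul_cancel, map_one]
  have e2 : π (h⁻¹ * k * h) = 1 + cv π u h := by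
    rw [map_mul, map_mul, hk, cv, mul_add, add_mul, mul_one, hh]
  rw [e, map_mul, map_mul, hu.inv hk, e2]
  have z : u * (π (cm g h) * cv π u h) = 0 :=
    II_mul3 hu.sq (hS _) II_self (cv_mem hS u h)
  have : (1 - u) * π (cm g h) * (1 + cv π u h) - 1 = (π (cm g h) - 1)
      + (π (cm g h) * cv π u h - u * π (cm g h)) - u * (π (cm g h) * cv π u h) := by
    noncomm_ring
  rw [this, z, sub_zero]

/-- first derivative of the law -/
theorem deriv1 (hS : ∀ g, π g ∈ S) (law : LinLaw π) {u : A} (hu : Letter S π u) (g h : G)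
    {D δ : A} (hD : D = π (cm g h) - 1) (hδ : δ = (1 + D) * cv π u h - u * (1 + D)) :
    π g * (u * (D * D)) + (π g - 1) * (D * δ + δ * D) = 0 := by
  obtain ⟨k, hk⟩ := hu.gr
  have uS := hu.mem hS
  have DS : D ∈ S := by rw [hD]; exact S.sub_mem (hS _) S.one_mem
  have hc : π (cm g h) = 1 + D := by rw [hD]; abel
  have e := step_cm hS hu hk g h
  rw [hc, ← hδ] at e
  have e' : π (cm (g * k) h) - 1 = D + δ := by rw [e]; abel
  have h1 := law (g * k) h
  have h0 := law g h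
  rw [e', map_mul, hk] at h1
  rw [← hD] at h0
  have δI : δ ∈ II S u := by
    rw [hδ]
    exact (II S u).sub_mem (II_left (S.add_mem S.one_mem DS) (cv_mem hS u h))
      (II_right (S.add_mem S.one_mem DS) II_self)
  have xI : π g * u ∈ II S u := II_left (hS g) II_self
  have z1 : δ * δ = 0 := II_mul hu.sq δI δI
  have z2 : (π g * u) * (D * δ) = 0 := II_mul hu.sq xI (II_left DS δI)
  have z3 : (π g * u) * (δ * D) = 0 := II_mul hu.sq xI (II_right DS δI)
  have : (π g * (1 + u) - 1) * ((D + δ) * (D + δ))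
      = (π g - 1) * (D * D) + (π g * (u * (D * D)) + (π g - 1) * (D * δ + δ * D))
        + ((π g * u) * (D * δ) + (π g * u) * (δ * D)) + (π g * (1 + u) - 1) * (δ * δ) := by
    noncomm_ring
  rw [this, h0, z1, z2, z3] at h1
  simpa using h1

/-- `(F2)`: the part of the law which is linear in three letters, `h` arbitrary -/
theorem law3 (hS : ∀ g, π g ∈ S) (law : LinLaw π) {u1 u2 u3 : A} (h1 : Letter S π u1)
    (h2 : Letter S π u2) (h3 : Letter S π u3) (h : G) {d1 d2 d3 : A}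
    (hd1 : d1 = cv π u1 h - u1) (hd2 : d2 = cv π u2 h - u2) (hd3 : d3 = cv π u3 h - u3) :
    u1 * (d2 * d3 + d3 * d2) + u2 * (d1 * d3 + d3 * d1) + u3 * (d1 * d2 + d2 * d1) = 0 := by
  obtain ⟨k2, hk2⟩ := h2.gr
  obtain ⟨k3, hk3⟩ := h3.gr
  have u1S := h1.mem hS
  have u2S := h2.mem hS
  have u3S := h3.mem hS
  set v1 := cv π u1 h with hv1
  set v2 := cv π u2 h with hv2
  set v3 := cv π u3 h with hv3
  have v1S : v1 ∈ S := II_le u1S (cv_mem hS u1 h)
  have v2S : v2 ∈ S := II_le u2S (cv_mem hS u2 h)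
  have v3S : v3 ∈ S := II_le u3S (cv_mem hS u3 h)
  have d1S : d1 ∈ S := by rw [hd1]; exact S.sub_mem v1S u1S
  have d2I : d2 ∈ II S u2 := by rw [hd2]; exact (II S u2).sub_mem (cv_mem hS u2 h) II_self
  have d3I : d3 ∈ II S u3 := by rw [hd3]; exact (II S u3).sub_mem (cv_mem hS u3 h) II_self
  have d2S := II_le u2S d2I
  have d3S := II_le u3S d3I
  -- the element D = [k3 k2, h] - 1
  have e3 : π (cm k3 h) - 1 = d3 := by
    have := step_cm hS h3 hk3 1 h
    have c1 : cm (1 : G) h = 1 := by unfold cm; group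
    rw [one_mul, c1, map_one, sub_self, zero_add, one_mul, mul_one] at this
    rw [this, hd3]
  have c3 : π (cm k3 h) = 1 + d3 := by rw [← e3]; abel
  set δ2 := (1 + d3) * v2 - u2 * (1 + d3) with hδ2
  have eD : π (cm (k3 * k2) h) - 1 = d3 + δ2 := by
    rw [step_cm hS h2 hk2 k3 h, c3, ← hv2, ← hδ2]; abel
  have δ2I : δ2 ∈ II S u2 := (II S u2).sub_mem (II_left (S.add_mem S.one_mem d3S)
    (cv_mem hS u2 h)) (II_right (S.add_mem S.one_mem d3S) II_self)
  have δ2S := II_le u2S δ2I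
  set D := d3 + δ2 with hD
  have DS : D ∈ S := S.add_mem d3S δ2S
  set δ1 := (1 + D) * v1 - u1 * (1 + D) with hδ1
  have key := deriv1 hS law h1 (k3 * k2) h (D := D) (δ := δ1) eD.symm rfl
  rw [map_mul, hk3, hk2] at key
  -- vanishing products
  have n2 : ∀ x ∈ II S u2, ∀ y ∈ II S u2, x * y = 0 := fun x hx y hy => II_mul h2.sq hx hy
  have n3 : ∀ x ∈ II S u3, ∀ y ∈ II S u3, x * y = 0 := fun x hx y hy => II_mul h3.sq hx hy
  have n2' : ∀ x ∈ II S u2, ∀ a ∈ S, ∀ y ∈ II S u2, x * (a * y) = 0 :=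
    fun x hx a ha y hy => II_mul3 h2.sq ha hx hy
  have n3' : ∀ x ∈ II S u3, ∀ a ∈ S, ∀ y ∈ II S u3, x * (a * y) = 0 :=
    fun x hx a ha y hy => II_mul3 h3.sq ha hx hy
  have u2I : u2 ∈ II S u2 := II_self
  have u3I : u3 ∈ II S u3 := II_self
  have v2I : v2 ∈ II S u2 := cv_mem hS u2 h
  -- δ2 = d2 + (d3 v2 - u2 d3)
  have f2 : δ2 = d2 + (d3 * v2 - u2 * d3) := by rw [hδ2, hd2]; noncomm_ring
  have rI : d3 * v2 - u2 * d3 ∈ II S u3 :=
    (II S u3).sub_mem (II_right v2S d3I) (II_left u2S d3I)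
  have rS := II_le u3S rI
  set r := d3 * v2 - u2 * d3 with hr
  -- products with `x ∈ II u3`
  have g3 : ∀ x ∈ II S u3, ∀ a ∈ S, x * (a * D) = x * (a * d2) := by
    intro x hx a ha
    have : x * (a * D) = x * (a * d2) + x * (a * d3) + x * (a * r) := by
      rw [hD, f2]; noncomm_ring
    rw [this, n3' x hx a ha d3 d3I, n3' x hx a ha r rI, add_zero, add_zero]
  have g2 : ∀ x ∈ II S u2, ∀ a ∈ S, x * (a * D) = x * (a * d3) := by
    intro x hx a ha
    have : x * (a * D) = x * (a * d3) + x * (a * δ2) := by rw [hD]; noncomm_ring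
    rw [this, n2' x hx a ha δ2 δ2I, add_zero]
  -- D D
  have DD : D * D = d3 * d2 + d2 * d3 := by
    have a1 := g3 d3 d3I 1 S.one_mem
    have a2 := g2 δ2 δ2I 1 S.one_mem
    rw [one_mul, one_mul] at a1 a2
    have a3 : δ2 * d3 = d2 * d3 := by
      rw [f2, add_mul, n3 r rI d3 d3I, add_zero]
    have : D * D = d3 * D + δ2 * D := by rw [← add_mul]
    rw [this, a1, a2, a3]
  have DDI2 : D * D ∈ II S u2 := by
    rw [DD]; exact (II S u2).add_mem (II_left d3S d2I) (II_right d3S d2I)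
  have DDI3 : D * D ∈ II S u3 := by
    rw [DD]; exact (II S u3).add_mem (II_right d2S d3I) (II_left d2S d3I)
  -- the first term
  have t1 : (1 + u3) * (1 + u2) * (u1 * (D * D)) = u1 * (d3 * d2 + d2 * d3) := by
    have : (1 + u3) * (1 + u2) * (u1 * (D * D)) = u1 * (D * D) + u3 * (u1 * (D * D))
        + u2 * (u1 * (D * D)) + u3 * ((u2 * u1) * (D * D)) := by noncomm_ring
    rw [this, n3' u3 u3I u1 u1S _ DDI3, n2' u2 u2I u1 u1S _ DDI2,
      n3' u3 u3I _ (S.mul_mem u2S u1S) _ DDI3, DD]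
    simp
  -- x * δ1 * ... for x in II u3 or II u2
  have δ1S : δ1 ∈ S := S.sub_mem (S.mul_mem (S.add_mem S.one_mem DS) v1S)
    (S.mul_mem u1S (S.add_mem S.one_mem DS))
  have fδ1 : δ1 = d1 + (D * v1 - u1 * D) := by rw [hδ1, hd1]; noncomm_ring
  -- words containing `D` twice after a letter vanish
  have w3 : ∀ x ∈ II S u3, ∀ a ∈ S, ∀ b ∈ S, x * (a * (D * (b * D))) = 0 := by
    intro x hx a ha b hb
    have e1 : x * (a * (D * (b * D))) = (x * (a * D)) * (b * D) := by noncomm_ring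
    rw [e1, g3 x hx a ha]
    have e2 : x * (a * d2) * (b * D) = (x * (a * d2)) * (b * D) := rfl
    have m3 : x * (a * d2) ∈ II S u3 := II_right (S.mul_mem ha d2S) hx
    rw [g3 _ m3 b hb]
    have m2 : x * (a * d2) ∈ II S u2 := II_left (II_le u3S hx) (II_left ha d2I)
    exact n2' _ m2 b hb _ d2I
  have w2 : ∀ x ∈ II S u2, ∀ a ∈ S, ∀ b ∈ S, x * (a * (D * (b * D))) = 0 := by
    intro x hx a ha b hb
    have e1 : x * (a * (D * (b * D))) = (x * (a * D)) * (b * D) := by noncomm_ring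
    rw [e1, g2 x hx a ha]
    have m2 : x * (a * d3) ∈ II S u2 := II_right (S.mul_mem ha d3S) hx
    rw [g2 _ m2 b hb]
    have m3 : x * (a * d3) ∈ II S u3 := II_left (II_le u2S hx) (II_left ha d3I)
    exact n3' _ m3 b hb _ d3I
  have s3 : ∀ x ∈ II S u3, x * (D * δ1 + δ1 * D) = x * (d2 * d1 + d1 * d2) := by
    intro x hx
    have e1 : x * (D * δ1 + δ1 * D) = (x * (1 * D)) * d1 + x * (d1 * D)
        + (x * (1 * (D * (1 * D)))) * v1 - x * (1 * (D * (u1 * D)))
        + x * (1 * (D * (v1 * D))) - x * (u1 * (D * (1 * D))) := by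
      rw [fδ1]; noncomm_ring
    rw [e1, w3 x hx 1 S.one_mem 1 S.one_mem, w3 x hx 1 S.one_mem u1 u1S,
      w3 x hx 1 S.one_mem v1 v1S, w3 x hx u1 u1S 1 S.one_mem, g3 x hx 1 S.one_mem,
      g3 x hx d1 d1S]
    noncomm_ring
  have s2 : ∀ x ∈ II S u2, x * (D * δ1 + δ1 * D) = x * (d3 * d1 + d1 * d3) := by
    intro x hx
    have e1 : x * (D * δ1 + δ1 * D) = (x * (1 * D)) * d1 + x * (d1 * D)
        + (x * (1 * (D * (1 * D)))) * v1 - x * (1 * (D * (u1 * D)))
        + x * (1 * (D * (v1 * D))) - x * (u1 * (D * (1 * D))) := by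
      rw [fδ1]; noncomm_ring
    rw [e1, w2 x hx 1 S.one_mem 1 S.one_mem, w2 x hx 1 S.one_mem u1 u1S,
      w2 x hx 1 S.one_mem v1 v1S, w2 x hx u1 u1S 1 S.one_mem, g2 x hx 1 S.one_mem,
      g2 x hx d1 d1S]
    noncomm_ring
  have t2 : ((1 + u3) * (1 + u2) - 1) * (D * δ1 + δ1 * D)
      = u3 * (d2 * d1 + d1 * d2) + u2 * (d3 * d1 + d1 * d3) := by
    have e1 : ((1 + u3) * (1 + u2) - 1) * (D * δ1 + δ1 * D)
        = u3 * (D * δ1 + δ1 * D) + u2 * (D * δ1 + δ1 * D)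
          + (u3 * u2) * (D * δ1 + δ1 * D) := by noncomm_ring
    have m2 : u3 * u2 ∈ II S u2 := II_left u3S u2I
    have m3 : u3 * u2 ∈ II S u3 := II_right u2S u3I
    have e2 : (u3 * u2) * (D * δ1 + δ1 * D) = 0 := by
      rw [s2 _ m2]
      have y3 : d3 * d1 + d1 * d3 ∈ II S u3 :=
        (II S u3).add_mem (II_right d1S d3I) (II_left d1S d3I)
      exact n3 _ m3 _ y3
    rw [e1, e2, s3 u3 u3I, s2 u2 u2I, add_zero]
  rw [t1, t2] at key
  have : u1 * (d2 * d3 + d3 * d2) + u2 * (d1 * d3 + d3 * d1) + u3 * (d1 * d2 + d2 * d1)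
      = u1 * (d3 * d2 + d2 * d3) + (u3 * (d2 * d1 + d1 * d2) + u2 * (d3 * d1 + d1 * d3)) := by
    noncomm_ring
  rw [this, key]

/-- the exact polarised law on letters -/
theorem law_FF (hS : ∀ g, π g ∈ S) (law : LinLaw π) {u1 u2 u3 w1 w2 : A}
    (h1 : Letter S π u1) (h2 : Letter S π u2) (h3 : Letter S π u3)
    (k1 : Letter S π w1) (k2 : Letter S π w2) : FF u1 u2 u3 w1 w2 = 0 := by
  obtain ⟨g1, hg1⟩ := k1.gr
  obtain ⟨g2, hg2⟩ := k2.gr
  have w1S := k1.mem hS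
  have w2S := k2.mem hS
  have i1 := k1.inv hg1
  have i2 := k2.inv hg2
  -- conjugation by the letters
  have c1 : ∀ u, Letter S π u → cv π u g1 - u = bk u w1 := by
    intro u hu
    have uS := hu.mem hS
    have z := k1.sq u uS
    have : (1 - w1) * u * (1 + w1) - u = (u * w1 - w1 * u) - w1 * u * w1 := by noncomm_ring
    rw [cv, i1, hg1, this, z, sub_zero]; rfl
  have c2 : ∀ u, Letter S π u → cv π u g2 - u = bk u w2 := by
    intro u hu
    have uS := hu.mem hS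
    have z := k2.sq u uS
    have : (1 - w2) * u * (1 + w2) - u = (u * w2 - w2 * u) - w2 * u * w2 := by noncomm_ring
    rw [cv, i2, hg2, this, z, sub_zero]; rfl
  have c12 : ∀ u, Letter S π u → cv π u (g1 * g2) - u = bk u w1 + (bk u w2 + bk (bk u w1) w2) := by
    intro u hu
    have hb := hu.bk hS k1
    have e1 := c1 u hu
    have e1' : cv π u g1 = u + bk u w1 := by rw [← e1]; abel
    have e2 := c2 (bk u w1) hb
    have e3 := c2 u hu
    have : cv π u (g1 * g2) = cv π (cv π u g1) g2 := by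
      unfold cv
      rw [mul_inv_rev, map_mul, map_mul]; simp only [mul_assoc]
    rw [this, e1']
    have lin : cv π (u + bk u w1) g2 = cv π u g2 + cv π (bk u w1) g2 := by
      unfold cv; rw [mul_add, add_mul]
    rw [lin]
    have : cv π u g2 + cv π (bk u w1) g2 - u
        = (cv π u g2 - u) + (cv π (bk u w1) g2 - bk u w1) + bk u w1 := by abel
    rw [this, e2, e3]; abel
  have L12 := law3 hS law h1 h2 h3 (g1 * g2) (c12 u1 h1).symm (c12 u2 h2).symm (c12 u3 h3).symm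
  have L1 := law3 hS law h1 h2 h3 g1 (c1 u1 h1).symm (c1 u2 h2).symm (c1 u3 h3).symm
  have L2 := law3 hS law h1 h2 h3 g2 (c2 u1 h1).symm (c2 u2 h2).symm (c2 u3 h3).symm
  -- memberships
  have m1 : ∀ u ∈ S, bk u w1 ∈ II S w1 := fun u hu =>
    (II S w1).sub_mem (II_left hu II_self) (II_right hu II_self)
  have m2 : ∀ u ∈ S, bk u w2 ∈ II S w2 := fun u hu =>
    (II S w2).sub_mem (II_left hu II_self) (II_right hu II_self)
  have bS : ∀ u ∈ S, bk u w1 ∈ S := fun u hu => S.sub_mem (S.mul_mem hu w1S) (S.mul_mem w1S hu)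
  have m1' : ∀ u ∈ S, bk (bk u w1) w2 ∈ II S w1 := fun u hu =>
    (II S w1).sub_mem (II_right w2S (m1 u hu)) (II_left w2S (m1 u hu))
  have z11 : ∀ x ∈ II S w1, ∀ y ∈ II S w1, x * y = 0 := fun x hx y hy => II_mul k1.sq hx hy
  have z22 : ∀ x ∈ II S w2, ∀ y ∈ II S w2, x * y = 0 := fun x hx y hy => II_mul k2.sq hx hy
  -- one product
  have prod : ∀ u ∈ S, ∀ u' ∈ S,
      (bk u w1 + (bk u w2 + bk (bk u w1) w2)) * (bk u' w1 + (bk u' w2 + bk (bk u' w1) w2))
        = bk u w1 * bk u' w1 + bk u w2 * bk u' w2 + (bk u w1 * bk u' w2 + bk u w2 * bk u' w1) := by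
    intro u hu u' hu'
    have a1 := z11 _ (m1 u hu) _ (m1' u' hu')
    have a2 := z11 _ (m1' u hu) _ (m1 u' hu')
    have a3 := z11 _ (m1' u hu) _ (m1' u' hu')
    have a4 := z22 _ (m2 u hu) _ (m2 _ (bS u' hu'))
    have a5 := z22 _ (m2 _ (bS u hu)) _ (m2 u' hu')
    have : (bk u w1 + (bk u w2 + bk (bk u w1) w2)) * (bk u' w1 + (bk u' w2 + bk (bk u' w1) w2))
        = bk u w1 * bk u' w1 + bk u w2 * bk u' w2 + (bk u w1 * bk u' w2 + bk u w2 * bk u' w1)
          + bk u w1 * bk (bk u' w1) w2 + bk (bk u w1) w2 * bk u' w1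
          + bk (bk u w1) w2 * bk (bk u' w1) w2 + bk u w2 * bk (bk u' w1) w2
          + bk (bk u w1) w2 * bk u' w2 := by
      generalize bk (bk u w1) w2 = p
      generalize bk (bk u' w1) w2 = q
      generalize bk u w1 = x1
      generalize bk u w2 = x2
      generalize bk u' w1 = y1
      generalize bk u' w2 = y2
      noncomm_ring
    rw [this, a1, a2, a3, a4, a5]; simp
  have u1S := h1.mem hS
  have u2S := h2.mem hS
  have u3S := h3.mem hS
  rw [prod u2 u2S u3 u3S, prod u3 u3S u2 u2S, prod u1 u1S u3 u3S, prod u3 u3S u1 u1S,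
    prod u1 u1S u2 u2S, prod u2 u2S u1 u1S] at L12
  unfold FF SS
  have fin : ∀ a1 a2 a3 b1 b2 b3 : A,
      u1 * (a2 * b3 + b3 * a2 + b2 * a3 + a3 * b2) + u2 * (a1 * b3 + b3 * a1 + b1 * a3 + a3 * b1)
        + u3 * (a1 * b2 + b2 * a1 + b1 * a2 + a2 * b1)
      = (u1 * (a2 * a3 + b2 * b3 + (a2 * b3 + b2 * a3) + (a3 * a2 + b3 * b2 + (a3 * b2 + b3 * a2)))
        + u2 * (a1 * a3 + b1 * b3 + (a1 * b3 + b1 * a3) + (a3 * a1 + b3 * b1 + (a3 * b1 + b3 * a1)))
        + u3 * (a1 * a2 + b1 * b2 + (a1 * b2 + b1 * a2) + (a2 * a1 + b2 * b1 + (a2 * b1 + b2 * a1))))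
        - (u1 * (a2 * a3 + a3 * a2) + u2 * (a1 * a3 + a3 * a1) + u3 * (a1 * a2 + a2 * a1))
        - (u1 * (b2 * b3 + b3 * b2) + u2 * (b1 * b3 + b3 * b1) + u3 * (b1 * b2 + b2 * b1)) := by
    intro a1 a2 a3 b1 b2 b3
    noncomm_ring
  have := fin (bk u1 w1) (bk u2 w1) (bk u3 w1) (bk u1 w2) (bk u2 w2) (bk u3 w2)
  rw [L12, L1, L2] at this
  simpa using this

end Pool.Agent.Lib.MP_107960_al.H17
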