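import Pool.Agent.Lib.MP_107960_al.H53.Polys

set_option autoImplicit false

/-! `Sym3` and `S` are cancellable. -/

namespace Pool.Agent.Lib.MP_107960_al.H17

universe u

open Pool.Agent.Lib.MP_107960_al.H95
open Pool.Agent.Lib.MP_107960_al.H53 (pF pS pN ev_pF ev_pS ev_pN Ml_pS)

/-- four values -/
def vv {A : Type u} [Zero A] (a b c d e : A) (i : ℕ) : A :=
  if i = 0 then a else if i = 1 then b else if i = 2 then c else if i = 3 then d else
    if i = 4 then e else 0

theorem vv_mem {A : Type u} [Ring A] {L : AddSubgroup A} {a b c d e : A} (ha : a ∈ L)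
    (hb : b ∈ L) (hc : c ∈ L) (hd : d ∈ L) (he : e ∈ L) (i : ℕ) : vv a b c d e i ∈ L := by
  unfold vv
  split_ifs
  · exact ha
  · exact hb
  · exact hc
  · exact hd
  · exact he
  · exact L.zero_mem

/-- modulo `S` -/
theorem nilJ_pS (A : Type u) [Ring A] (L : AddSubgroup A) (hP : Pr A L) (Γ : List Poly)
    (hM : Md (pS :: Γ) L) : NilJ 3 L := by
  have hS : ∀ a ∈ L, ∀ b ∈ L, ∀ c ∈ L, ∀ d ∈ L, SS a b c d = 0 := by
    intro a ha b hb c hc d hd
    have h := (hM pS List.mem_cons_self).2 (vv a b c d 0) (vv_mem ha hb hc hd L.zero_mem)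
    rw [ev_pS hP.h3] at h
    exact h
  intro a t ht
  exact H53.modS A hP.h3 L hP.cl hP.gen hS a t ht

section sym

variable {A : Type u} [Ring A] {L : AddSubgroup A}

theorem bk_mem (hP : Pr A L) {x y : A} (hx : x ∈ L) (hy : y ∈ L) : bk x y ∈ L :=
  hP.cl x hx y hy

theorem jacobi (x y z : A) : bk (bk x y) z + bk (bk y z) x + bk (bk z x) y = 0 := by
  unfold bk; noncomm_ring

theorem bk_self (x y : A) : bk x y + bk y x = 0 := by unfold bk; noncomm_ring

/-- the main computation -/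
theorem quad_zero (hP : Pr A L)
    (hN : ∀ x ∈ L, ∀ y ∈ L, ∀ z ∈ L, bk x (bk y z) + bk y (bk x z) = 0)
    {x y z w : A} (hx : x ∈ L) (hy : y ∈ L) (hz : z ∈ L) (hw : w ∈ L) :
    bk (bk (bk x y) z) w = 0 := by
  -- alternation of `t x y z = [[x,y],z]`
  have t12 : ∀ a b c : A, bk (bk b a) c = -bk (bk a b) c := by
    intro a b c; unfold bk; noncomm_ring
  have t13 : ∀ a ∈ L, ∀ b ∈ L, ∀ c ∈ L, bk (bk c b) a = -bk (bk a b) c := by
    intro a ha b hb c hc
    have h := hN a ha c hc b hb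
    have e : bk a (bk c b) + bk c (bk a b) = -(bk (bk c b) a + bk (bk a b) c) := by
      unfold bk; noncomm_ring
    rw [e, neg_eq_zero] at h
    exact eq_neg_of_add_eq_zero_left h
  have t23 : ∀ a ∈ L, ∀ b ∈ L, ∀ c ∈ L, bk (bk a c) b = -bk (bk a b) c := by
    intro a ha b hb c hc
    rw [t12 c a b, t13 b hb a ha c hc, t12 a b c, neg_neg]
  -- q(x,y,z,w) = [[z,w],[x,y]]
  have q1 : ∀ a ∈ L, ∀ b ∈ L, ∀ c ∈ L, ∀ d ∈ L,
      bk (bk (bk a b) c) d = bk (bk c d) (bk a b) := by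
    intro a ha b hb c hc d hd
    rw [t13 d hd c hc (bk a b) (bk_mem hP ha hb), t12 c d (bk a b), neg_neg]
  have hxy := bk_mem hP hx hy
  -- alternation of q
  have s34 : ∀ a ∈ L, ∀ b ∈ L, ∀ c ∈ L, ∀ d ∈ L,
      bk (bk (bk a b) d) c = -bk (bk (bk a b) c) d := by
    intro a ha b hb c hc d hd
    exact t23 (bk a b) (bk_mem hP ha hb) c hc d hd
  have s13 : ∀ a ∈ L, ∀ b ∈ L, ∀ c ∈ L, ∀ d ∈ L,
      bk (bk (bk c b) a) d = -bk (bk (bk a b) c) d := by
    intro a ha b hb c hc d hd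
    rw [t13 a ha b hb c hc]
    unfold bk; noncomm_ring
  have s23 : ∀ a ∈ L, ∀ b ∈ L, ∀ c ∈ L, ∀ d ∈ L,
      bk (bk (bk a c) b) d = -bk (bk (bk a b) c) d := by
    intro a ha b hb c hc d hd
    rw [t23 a ha b hb c hc]
    unfold bk; noncomm_ring
  -- swap pairs : (x,y,z,w) -> (z,w,x,y) is even
  have e1 : bk (bk (bk z w) x) y = bk (bk (bk x y) z) w := by
    -- (z,w,x,y) -(13)-> (x,w,z,y) -(34)-> (x,w,y,z) -(23)-> (x,y,w,z) -(34)-> (x,y,z,w)
    rw [s13 x hx w hw z hz y hy, s34 x hx w hw y hy z hz, s23 x hx y hy w hw z hz,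
      s34 x hx y hy z hz w hw]
    simp
  have e2 := q1 x hx y hy z hz w hw
  have e3 := q1 z hz w hw x hx y hy
  have e4 : bk (bk z w) (bk x y) + bk (bk x y) (bk z w) = 0 := bk_self _ _
  rw [← e2, ← e3, e1] at e4
  set q := bk (bk (bk x y) z) w with hq
  have e5 : q + q + q = 0 := by
    have : q + q + q = 3 * q := by noncomm_ring
    rw [this, hP.h3, zero_mul]
  rw [e4, zero_add] at e5
  exact e5

theorem central_of (hP : Pr A L) {t : A} (h : ∀ w ∈ L, bk t w = 0) (b : A) : t * b = b * t := by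
  have hb : b ∈ Subring.closure (L : Set A) := by rw [hP.gen]; trivial
  induction hb using Subring.closure_induction with
  | mem x hx => exact sub_eq_zero.1 (h x hx)
  | zero => simp
  | one => simp
  | add a b _ _ ha hb => rw [mul_add, ha, hb, add_mul]
  | neg a _ ha => rw [mul_neg, ha, neg_mul]
  | mul a b _ _ ha hb => rw [← mul_assoc, ha, mul_assoc, hb, mul_assoc]

theorem nilJ_sym (hP : Pr A L)
    (hF : ∀ a ∈ L, ∀ b ∈ L, ∀ c ∈ L, ∀ d ∈ L, ∀ e ∈ L, FF a b c d e = 0)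
    (hN : ∀ x ∈ L, ∀ y ∈ L, ∀ z ∈ L, bk x (bk y z) + bk y (bk x z) = 0) : NilJ 4 L := by
  intro a t ht
  rw [List.ofFn_succ, List.prod_cons]
  have hV : (List.ofFn (fun i : Fin 3 => a i.succ * t i.succ)).prod ∈ VI L pS := by
    apply quot_nil (Γ := []) (M := 3) (fun A _ L hP hM => nilJ_pS A L hP [] hM) hP
      (by intro p hp; simp at hp) Ml_pS
    intro i
    exact ht i.succ
  obtain ⟨x, hx, y, hy, z, hz, htt⟩ := ht 0
  have htt' : t 0 = bk (bk x y) z := htt
  have hzero : ∀ w ∈ L, bk (t 0) w = 0 := by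
    intro w hw
    rw [htt']; exact quad_zero hP hN hx hy hz hw
  have hcen := central_of hP hzero
  have htL : t 0 ∈ L := by rw [htt']; exact bk_mem hP (bk_mem hP hx hy) hz
  have hS : ∀ b ∈ L, ∀ c ∈ L, ∀ d ∈ L, ∀ e ∈ L, t 0 * SS b c d e = 0 := by
    intro b hb c hc d hd e he
    have h := hF (t 0) htL b hb c hc d hd e he
    unfold FF at h
    have k1 : SS (t 0) c d e = 0 := by
      unfold SS
      rw [hzero d hd, hzero e he]; simp
    have k2 : SS (t 0) b d e = 0 := by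
      unfold SS
      rw [hzero d hd, hzero e he]; simp
    rw [k1, k2, mul_zero, mul_zero, add_zero, add_zero] at h
    exact h
  have hkill : ∀ v ∈ VI L pS, t 0 * v = 0 := by
    intro v hv
    unfold VI at hv
    induction hv using Submodule.span_induction with
    | mem z hz =>
      obtain ⟨l, hl, rfl⟩ := hz
      rw [ev_pS hP.h3]
      exact hS _ (hl 0) _ (hl 1) _ (hl 2) _ (hl 3)
    | zero => simp
    | add u w _ _ hu hw => rw [mul_add, hu, hw, add_zero]
    | smul c z _ hz => rw [smul_eq_mul, ← mul_assoc, hcen c, mul_assoc, hz, mul_zero]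
  rw [mul_assoc, hkill _ hV, mul_zero]

end sym

/-- `Sym3` is cancellable -/
theorem Bd_N3 {Γ : List Poly} (hf : pF ∈ Γ) : Bd.{u} (pN :: Γ) := by
  refine ⟨4, fun A _ L hP hM => ?_⟩
  apply nilJ_sym hP
  · intro a ha b hb c hc d hd e he
    have h := (hM pF (List.mem_cons_of_mem _ hf)).2 (vv a b c d e) (vv_mem ha hb hc hd he)
    rw [ev_pF hP.h3] at h
    exact h
  · intro x hx y hy z hz
    have h := (hM pN List.mem_cons_self).2 (vv x y z 0 0)
      (vv_mem hx hy hz L.zero_mem L.zero_mem)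
    rw [ev_pN hP.h3] at h
    exact h

end Pool.Agent.Lib.MP_107960_al.H17
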