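import Pool.Agent.Lib.MP_107960_al.H17.Layer
import Pool.Agent.Lib.MP_107960_al.H17.SymCase
import Pool.Agent.Lib.MP_107960_al.H53.Assemble

set_option autoImplicit false

/-! The final assembly with explicit constants: everything follows from five vanishing
products. -/

namespace Pool.Agent.Lib.MP_107960_al.H17

universe u

open Pool.Agent.Lib.MP_107960_al.H95
open Pool.Agent.Lib.MP_107960_al.H53 (pF pS pN pP Van Ml_pX Ml_pC Ml_pT Ml_pS Ml_pN Ml_pP ev_pF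
  Ml_pF ev_pN)

/-- `J^M = 0` for all pairs satisfying `Γ` -/
def BM (M : ℕ) (Γ : List Poly) : Prop :=
  ∀ (A : Type u) [Ring A] (L : AddSubgroup A), Pr A L → Md Γ L → NilJ M L

theorem BM_cancel {Γ : List Poly} {g p : Poly} (hg : Ml g) (hp : Ml p) {M1 M2 : ℕ}
    (h : Van.{u} Γ g p) (hM1 : BM.{u} M1 (g :: Γ)) (hM2 : BM.{u} M2 (p :: Γ)) :
    BM.{u} (M1 + M2) Γ := by
  intro A _ L hP hΓ a t ht
  rw [List.ofFn_add, List.prod_append]
  apply VI_mul_VI hP hg (h A L hP hΓ)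
  · exact quot_nil hM1 hP hΓ hg (fun i => a (Fin.castAdd M2 i)) (fun i => t (Fin.castAdd M2 i))
      (fun i => ht _)
  · exact quot_nil hM2 hP hΓ hp (fun i => a (Fin.natAdd M1 i)) (fun i => t (Fin.natAdd M1 i))
      (fun i => ht _)

theorem BM_mono {M : ℕ} {Γ Γ' : List Poly} (h : ∀ p ∈ Γ, p ∈ Γ') (h1 : BM.{u} M Γ) :
    BM.{u} M Γ' := fun A _ L hP hM => h1 A L hP (fun p hp => hM p (h p hp))

theorem BM_triv {Γ : List Poly}
    (h : ∀ (A : Type u) [Ring A] (L : AddSubgroup A), Pr A L → Md Γ L →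
      ∀ x ∈ L, ∀ y ∈ L, ∀ z ∈ L, (x * y - y * x) * z - z * (x * y - y * x) = 0) :
    BM.{u} 1 Γ := by
  intro A _ L hP hΓ a t ht
  obtain ⟨x, hx, y, hy, z, hz, hh⟩ := ht 0
  rw [h A L hP hΓ x hx y hy z hz] at hh
  simp [hh]

theorem BM_pT (Γ : List Poly) : BM.{u} 1 (pT :: Γ) := by
  apply BM_triv
  intro A _ L hP hM x hx y hy z hz
  have h := (hM pT List.mem_cons_self).2 (vv x y z 0 0) (vv_mem hx hy hz L.zero_mem L.zero_mem)
  rw [ev_pT hP.h3] at h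
  exact h

theorem BM_pC (Γ : List Poly) : BM.{u} 1 (pC :: Γ) := by
  apply BM_triv
  intro A _ L hP hM x hx y hy z hz
  have h := (hM pC List.mem_cons_self).2 (vv x y 0 0 0)
    (vv_mem hx hy L.zero_mem L.zero_mem L.zero_mem)
  rw [ev_pC hP.h3] at h
  have h' : x * y - y * x = 0 := h
  rw [h']; simp

theorem BM_pX (Γ : List Poly) : BM.{u} 1 (pX :: Γ) := by
  apply BM_triv
  intro A _ L hP hM x hx y hy z hz
  have h : ∀ x ∈ L, x = 0 := by
    intro x hx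
    have h := (hM pX List.mem_cons_self).2 (fun _ => x) (fun _ => hx)
    simpa [pX] using h
  rw [h x hx]; simp

theorem BM_pS (Γ : List Poly) : BM.{u} 3 (pS :: Γ) :=
  fun A _ L hP hM => nilJ_pS A L hP Γ hM

theorem BM_pN {Γ : List Poly} (hf : pF ∈ Γ) : BM.{u} 4 (pN :: Γ) := by
  intro A _ L hP hM
  apply nilJ_sym hP
  · intro a ha b hb c hc d hd e he
    have h := (hM pF (List.mem_cons_of_mem _ hf)).2 (vv a b c d e) (vv_mem ha hb hc hd he)
    rw [ev_pF hP.h3] at h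
    exact h
  · intro x hx y hy z hz
    have h := (hM pN List.mem_cons_self).2 (vv x y z 0 0)
      (vv_mem hx hy hz L.zero_mem L.zero_mem)
    rw [ev_pN hP.h3] at h
    exact h

/-- the chain with explicit constants -/
theorem BM_pF {p10 r6p R5 : Poly} (m1 : Ml p10) (m2 : Ml r6p) (m3 : Ml R5)
    (h1 : Van.{u} [pF] pX p10)
    (h2 : Van.{u} [p10, pF] pC r6p)
    (h3 : Van.{u} [r6p, p10, pF] R5 pN)
    (h4 : Van.{u} [R5, r6p, p10, pF] pP pP)
    (h5 : Van.{u} [pP, pF] pT pS) : BM.{u} 14 [pF] := by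
  have hP4 : BM.{u} 4 [pP, pF] := BM_cancel Ml_pT Ml_pS h5 (BM_pT _) (BM_pS _)
  have hP4' : BM.{u} 4 [pP, R5, r6p, p10, pF] := BM_mono (by
    intro p hp
    simp only [List.mem_cons, List.not_mem_nil, or_false] at hp ⊢
    tauto) hP4
  have s4 : BM.{u} 8 [R5, r6p, p10, pF] := BM_cancel Ml_pP Ml_pP h4 hP4' hP4'
  have s3 : BM.{u} 12 [r6p, p10, pF] := BM_cancel m3 Ml_pN h3 s4 (BM_pN (by simp))
  have s2 : BM.{u} 13 [p10, pF] := BM_cancel Ml_pC m2 h2 (BM_pC _) s3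
  exact BM_cancel Ml_pX m1 h1 (BM_pX _) s2

theorem APrime_of_BM {M : ℕ} (hM : BM.{u} M [pF]) : APrime.{u} M := by
  intro A _ h3 L hcl hgen hF a t ht
  apply hM A L ⟨h3, hcl, hgen⟩ _ a t ht
  intro p hp
  rw [List.mem_singleton] at hp
  subst hp
  refine ⟨Ml_pF, fun v hv => ?_⟩
  rw [ev_pF h3]
  exact hF _ (hv 0) _ (hv 1) _ (hv 2) _ (hv 3) _ (hv 4)

/-- the full answer from the five products -/
theorem main_of_products {p10 r6p R5 : Poly} (m1 : Ml p10) (m2 : Ml r6p) (m3 : Ml R5)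
    (h1 : Van.{u} [pF] pX p10)
    (h2 : Van.{u} [p10, pF] pC r6p)
    (h3 : Van.{u} [r6p, p10, pF] R5 pN)
    (h4 : Van.{u} [R5, r6p, p10, pF] pP pP)
    (h5 : Van.{u} [pP, pF] pT pS)
    (G : Type u) [Group G] (law : ∀ x y : G, (x⁻¹ * y⁻¹ * x * y) ^ 3 = 1) :
    derivedSeries G 742 = ⊥ ∧ ∀ g ∈ commutator G, g ^ (3 ^ 741) = 1 := by
  have hA := APrime_of_BM (BM_pF m1 m2 m3 h1 h2 h3 h4 h5)
  have hF := H11F.F_of_layer 14 (layer_of_APrime hA)
  exact H11F.main hF G law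

end Pool.Agent.Lib.MP_107960_al.H17
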