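import Pool.Agent.Lib.MP_107960_al.H17.Section
import Pool.Agent.Lib.MP_107960_al.H11.Final

set_option autoImplicit false

open scoped commutatorElement

namespace Pool.Agent.Lib.MP_107960_al.H17

universe u

open Pool.Agent.Lib.MP_107960_al

theorem itc_eq {G : Type u} [Group G] (X K : Subgroup G) (n : ℕ) :
    H11.itc X K n = itc X K n := by
  induction n with
  | zero => rfl
  | succ n ih =>
    show ⁅H11.itc X K n, K⁆ = ⁅itc X K n, K⁆
    rw [ih]

/-- `(A')` implies the layer statement -/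
theorem layer_of_APrime {M : ℕ} (H : APrime.{u} M) : H11F.Layer.{u} M := by
  intro N _ law hA1 i hi
  obtain ⟨j, rfl⟩ : ∃ j, i = j + 1 := ⟨i - 1, by omega⟩
  have law' : ∀ x y : N, (cm x y) ^ 3 = 1 := law
  rw [itc_eq]
  have hn1 : (H11.dS (⊤ : Subgroup N) (j + 1 + 1)).Normal := inferInstance
  have hn2 : (H11.dS (⊤ : Subgroup N) (j + 1)).Normal := inferInstance
  exact section_step H law' (H11.dS (⊤ : Subgroup N) (j + 1 + 1)) (H11.dS (⊤ : Subgroup N) (j + 1))
    le_rfl (fun x hx => H11F.pow_three_mem law j x hx) {y | ∀ g, Commute y (H44.cj y g)} hA1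
    (fun y hy g => hy g)

/-- the full answer from `(A')` -/
theorem main_of_APrime {M : ℕ} (H : APrime.{u} M) : ∃ d : ℕ, ∀ (G : Type u) [Group G],
    H44.Law G → derivedSeries G (1 + d + d * d + d * d) = ⊥ ∧
      ∀ x ∈ commutator G, x ^ (3 ^ (d + d * d + d * d)) = 1 :=
  H11F.main_of_layer (layer_of_APrime H)

end Pool.Agent.Lib.MP_107960_al.H17
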