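import Pool.Agent.Lib.MP_107960_al.H17.RingStep

set_option autoImplicit false

namespace Pool.Agent.Lib.MP_107960_al.H17

universe u

section cme

variable {A : Type*} [Ring A] {G : Type*} [Group G] {S : Subring A} {π : G →* A}

/-- group commutators of letters -/
theorem letter_cm_eq (hS : ∀ g, π g ∈ S) {u v : A} (hu : Letter S π u) (hv : Letter S π v)
    {g k : G} (hg : π g = 1 + u) (hk : π k = 1 + v) : π (cm g k) = 1 + bk u v := by
  have uS := hu.mem hS
  have vS := hv.mem hS
  have uu := hu.uu
  have vv := hv.uu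
  have uvu := hu.sq v vS
  have vuv := hv.sq u uS
  unfold cm
  rw [map_mul, map_mul, map_mul, hu.inv hg, hv.inv hk, hg, hk]
  have : (1 - u) * (1 - v) * (1 + u) * (1 + v) = 1 + (u * v - v * u)
      - u * u - v * v - u * u * v + v * v * u * 0 - (v * u * v) + u * v * u + u * (v * v)
      + u * v * u * v := by noncomm_ring
  rw [this, mul_zero, uu, vv, vuv, uvu]
  simp [Pool.Agent.Lib.MP_107960_al.H17.bk]

end cme

/-- elements of the subring generated by a group are sums of group elements -/
theorem mem_closure_range {A : Type*} [Ring A] {G : Type*} [Group G] (π : G →* A) {a : A}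
    (ha : a ∈ Subring.closure (Set.range π)) : a ∈ AddSubgroup.closure (Set.range π) := by
  rw [Subring.mem_closure_iff] at ha
  have : ((Submonoid.closure (Set.range π) : Submonoid A) : Set A) = Set.range π := by
    have h1 : Set.range π = (MonoidHom.mrange π : Set A) := by
      ext x; simp
    rw [h1, Submonoid.closure_eq]
  rwa [this] at ha

/-- the two-sided ideal generated by the triple brackets -/
def JJ {A : Type*} [Ring A] (S : Subring A) (L : AddSubgroup A) : AddSubgroup A :=
  AddSubgroup.closure {x | ∃ a ∈ S, ∃ b ∈ S, ∃ l ∈ L, ∃ m ∈ L, ∃ n ∈ L,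
    x = a * bk (bk l m) n * b}

section JJ

variable {A : Type*} [Ring A] {S : Subring A} {L : AddSubgroup A}

theorem JJ_left {a x : A} (ha : a ∈ S) (hx : x ∈ JJ S L) : a * x ∈ JJ S L := by
  unfold JJ at hx
  induction hx using AddSubgroup.closure_induction with
  | mem x hx =>
    obtain ⟨c, hc, b, hb, l, hl, m, hm, n, hn, rfl⟩ := hx
    exact AddSubgroup.subset_closure ⟨a * c, S.mul_mem ha hc, b, hb, l, hl, m, hm, n, hn,
      by simp only [mul_assoc]⟩
  | zero => rw [mul_zero]; exact (JJ S L).zero_mem
  | add x y _ _ ihx ihy => rw [mul_add]; exact (JJ S L).add_mem ihx ihy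
  | neg x _ ih => rw [mul_neg]; exact (JJ S L).neg_mem ih

theorem JJ_right {a x : A} (ha : a ∈ S) (hx : x ∈ JJ S L) : x * a ∈ JJ S L := by
  unfold JJ at hx
  induction hx using AddSubgroup.closure_induction with
  | mem x hx =>
    obtain ⟨c, hc, b, hb, l, hl, m, hm, n, hn, rfl⟩ := hx
    exact AddSubgroup.subset_closure ⟨c, hc, b * a, S.mul_mem hb ha, l, hl, m, hm, n, hn,
      by simp only [mul_assoc]⟩
  | zero => rw [zero_mul]; exact (JJ S L).zero_mem
  | add x y _ _ ihx ihy => rw [add_mul]; exact (JJ S L).add_mem ihx ihy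
  | neg x _ ih => rw [neg_mul]; exact (JJ S L).neg_mem ih

/-- `J^M = 0` -/
theorem JJ_pow {M : ℕ} (hA : APr M A L) (hSL : S ≤ Subring.closure (L : Set A)) :
    ∀ l : List A, ∀ p : List (A × A), p.length + l.length = M →
      (∀ q ∈ p, q.1 ∈ S ∧ ∃ x ∈ L, ∃ y ∈ L, ∃ z ∈ L, q.2 = bk (bk x y) z) →
      (∀ x ∈ l, x ∈ JJ S L) → ∀ b ∈ S,
      (p.map (fun q => q.1 * q.2)).prod * b * l.prod = 0 := by
  intro l
  induction l with
  | nil =>
    intro p hp hq _ b _
    have := hA p (by simpa using hp) (fun q hq' => ⟨hSL (hq q hq').1, (hq q hq').2⟩)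
    rw [this]; simp
  | cons x l ih =>
    intro p hp hq hl b hb
    have hx : x ∈ JJ S L := hl x (List.mem_cons_self)
    have hl' : ∀ y ∈ l, y ∈ JJ S L := fun y hy => hl y (List.mem_cons_of_mem x hy)
    rw [List.prod_cons]
    have hp' : p.length + (l.length + 1) = M := by
      rw [← hp, List.length_cons]
    clear hl hp
    unfold JJ at hx
    induction hx using AddSubgroup.closure_induction with
    | mem x hx =>
      obtain ⟨a, ha, c, hc, l1, h1, l2, h2, l3, h3, rfl⟩ := hx
      have := ih (p ++ [(b * a, bk (bk l1 l2) l3)]) (by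
        rw [List.length_append]
        have : ([(b * a, bk (bk l1 l2) l3)] : List (A × A)).length = 1 := rfl
        omega) (by
        intro q hq'
        rcases List.mem_append.1 hq' with hq' | hq'
        · exact hq q hq'
        · rw [List.mem_singleton] at hq'
          rw [hq']
          exact ⟨S.mul_mem hb ha, l1, h1, l2, h2, l3, h3, rfl⟩) hl' c hc
      rw [List.map_append, List.prod_append] at this
      simp only [List.map_cons, List.map_nil, List.prod_cons, List.prod_nil, mul_one] at this
      rw [← this]; simp only [mul_assoc]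
    | zero => simp
    | add x y _ _ ihx ihy => rw [add_mul, mul_add, ihx, ihy, add_zero]
    | neg x _ ih' => rw [neg_mul, mul_neg, ih', neg_zero]

end JJ

/-- the ring theoretic main step -/
theorem ring_main {M : ℕ} (H : APrime.{u} M) {G : Type u} [Group G] (A : Type u) [Ring A]
    (h3 : (3 : A) = 0) (π : G →* A) (law : LinLaw π) (Y : Set G)
    (hY : Subgroup.closure Y = ⊤)
    (hsq : ∀ y ∈ Y, ∀ g : G, (π y - 1) * π g * (π y - 1) = 0)
    (l : List A) (hl : l.length = M)
    (hc : ∀ x ∈ l, ∃ c ∈ ⁅⁅(⊤ : Subgroup G), (⊤ : Subgroup G)⁆, (⊤ : Subgroup G)⁆,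
      x = π c - 1) :
    l.prod = 0 := by
  set S := Subring.closure (Set.range π) with hSdef
  have hS : ∀ g, π g ∈ S := fun g => Subring.subset_closure ⟨g, rfl⟩
  set X : Set A := {u | Letter S π u} with hX
  set L := AddSubgroup.closure X with hL
  have bkX : ∀ x ∈ X, ∀ y ∈ X, bk x y ∈ AddSubgroup.closure X := fun x hx y hy =>
    AddSubgroup.subset_closure (Letter.bk hS hx hy)
  have bkL := bk_closure bkX
  have ffX : ∀ x1 ∈ X, ∀ x2 ∈ X, ∀ x3 ∈ X, ∀ y1 ∈ X, ∀ y2 ∈ X, FF x1 x2 x3 y1 y2 = 0 :=
    fun x1 h1 x2 h2 x3 h3 y1 k1 y2 k2 => law_FF hS law h1 h2 h3 k1 k2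
  have ffL := FF_closure ffX
  have hA := H.apr A h3 L bkL ffL
  -- the letters of Y
  have hYX : ∀ y ∈ Y, Letter S π (π y - 1) := by
    intro y hy
    refine ⟨⟨y, by abel⟩, ?_⟩
    have key : ∀ a ∈ AddSubgroup.closure (Set.range π), (π y - 1) * a * (π y - 1) = 0 := by
      intro a ha
      induction ha using AddSubgroup.closure_induction with
      | mem x hx =>
        obtain ⟨g, rfl⟩ := hx
        exact hsq y hy g
      | zero => simp
      | add a b _ _ iha ihb => rw [mul_add, add_mul, iha, ihb, add_zero]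
      | neg a _ ih => rw [mul_neg, neg_mul, ih, neg_zero]
    exact fun a ha => key a (mem_closure_range π ha)
  have memL : ∀ y ∈ Y, π y - 1 ∈ L := fun y hy => AddSubgroup.subset_closure (hYX y hy)
  -- S is generated by L
  have hSL : S ≤ Subring.closure (L : Set A) := by
    rw [hSdef, Subring.closure_le]
    rintro _ ⟨g, rfl⟩
    have hg : g ∈ Subgroup.closure Y := by rw [hY]; trivial
    have : π g ∈ Subring.closure (L : Set A) ∧ π g⁻¹ ∈ Subring.closure (L : Set A) := by
      induction hg using Subgroup.closure_induction with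
      | mem y hy =>
        have m := Subring.subset_closure (memL y hy)
        constructor
        · have e : π y = 1 + (π y - 1) := by abel
          rw [e]; exact Subring.add_mem _ (Subring.one_mem _) m
        · have e : π y⁻¹ = 1 - (π y - 1) := (hYX y hy).inv (by abel)
          rw [e]; exact Subring.sub_mem _ (Subring.one_mem _) m
      | one => rw [inv_one, map_one]; exact ⟨Subring.one_mem _, Subring.one_mem _⟩
      | mul a b _ _ iha ihb =>
        rw [mul_inv_rev, map_mul, map_mul]
        exact ⟨Subring.mul_mem _ iha.1 ihb.1, Subring.mul_mem _ ihb.2 iha.2⟩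
      | inv a _ ih => rw [inv_inv]; exact ⟨ih.2, ih.1⟩
    exact this.1
  -- the kernel modulo J
  set J := JJ S L with hJ
  let K : Subgroup G :=
    { carrier := {g | π g - 1 ∈ J}
      one_mem' := by
        show π 1 - 1 ∈ J
        rw [map_one, sub_self]; exact J.zero_mem
      mul_mem' := by
        intro a b ha hb
        show π (a * b) - 1 ∈ J
        have e : π (a * b) - 1 = (π a - 1) * π b + (π b - 1) := by
          rw [map_mul]; noncomm_ring
        rw [e]
        exact J.add_mem (JJ_right (hS b) ha) hb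
      inv_mem' := by
        intro a ha
        show π a⁻¹ - 1 ∈ J
        have e : π a⁻¹ - 1 = -(π a⁻¹ * (π a - 1)) := by
          have : π a⁻¹ * π a = 1 := by rw [← map_mul, inv_mul_cancel, map_one]
          rw [mul_sub, this]; noncomm_ring
        rw [e]
        exact J.neg_mem (JJ_left (hS _) ha) }
  have hK : ∀ g, g ∈ K ↔ π g - 1 ∈ J := fun g => Iff.rfl
  have : K.Normal := by
    refine ⟨?_⟩
    intro n hn g
    rw [hK] at hn ⊢
    have e : π (g * n * g⁻¹) - 1 = π g * (π n - 1) * π g⁻¹ := by
      have : π g * π g⁻¹ = 1 := by rw [← map_mul, mul_inv_cancel, map_one]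
      rw [map_mul, map_mul]
      have e2 : π g * (π n - 1) * π g⁻¹ = π g * π n * π g⁻¹ - π g * π g⁻¹ := by noncomm_ring
      rw [e2, this]
    rw [e]
    exact JJ_right (hS _) (JJ_left (hS _) hn)
  have g3 := gamma3_le hY K (by
    intro x hx y hy z hz
    rw [hK]
    have lx := hYX x hx
    have ly := hYX y hy
    have lz := hYX z hz
    have e1 := letter_cm_eq hS lx ly (g := x) (k := y) (by abel) (by abel)
    have lxy := Letter.bk hS lx ly
    have e2 := letter_cm_eq hS lxy lz (g := cm x y) (k := z) e1 (by abel)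
    rw [e2, add_sub_cancel_left]
    exact AddSubgroup.subset_closure ⟨1, S.one_mem, 1, S.one_mem, _, memL x hx, _, memL y hy,
      _, memL z hz, by rw [one_mul, mul_one]⟩)
  have := JJ_pow (S := S) hA hSL l [] (by simpa using hl) (by simp) (by
    intro x hx
    obtain ⟨c, hc', rfl⟩ := hc x hx
    exact g3 hc') 1 S.one_mem
  simpa using this

end Pool.Agent.Lib.MP_107960_al.H17
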