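import Pool.Agent.Lib.MP_107960_al.H17.Exact2

set_option autoImplicit false

namespace Pool.Agent.Lib.MP_107960_al.H17

universe u

/-- The multilinear statement (A'). -/
def APrime.{v} (M : ℕ) : Prop :=
  ∀ (A : Type v) [Ring A], (3 : A) = 0 → ∀ L : AddSubgroup A,
    (∀ x ∈ L, ∀ y ∈ L, x * y - y * x ∈ L) → Subring.closure (L : Set A) = ⊤ →
    (∀ x1 ∈ L, ∀ x2 ∈ L, ∀ x3 ∈ L, ∀ y1 ∈ L, ∀ y2 ∈ L, FF x1 x2 x3 y1 y2 = 0) →
    ∀ a t : Fin M → A, (∀ i, ∃ x ∈ L, ∃ y ∈ L, ∃ z ∈ L,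
      t i = (x * y - y * x) * z - z * (x * y - y * x)) →
    (List.ofFn (fun i => a i * t i)).prod = 0

/-- The same for subrings, lists instead of functions. -/
def APr (M : ℕ) (A : Type u) [Ring A] (L : AddSubgroup A) : Prop :=
  ∀ l : List (A × A), l.length = M →
    (∀ p ∈ l, p.1 ∈ Subring.closure (L : Set A) ∧
      ∃ x ∈ L, ∃ y ∈ L, ∃ z ∈ L, p.2 = bk (bk x y) z) →
    (l.map (fun p => p.1 * p.2)).prod = 0

theorem bk_def {A : Type*} [Ring A] (x y : A) : bk x y = x * y - y * x := rfl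

theorem APrime.apr {M : ℕ} (H : APrime.{u} M) (A : Type u) [Ring A] (h3 : (3 : A) = 0)
    (L : AddSubgroup A) (hL : ∀ x ∈ L, ∀ y ∈ L, bk x y ∈ L)
    (hF : ∀ x1 ∈ L, ∀ x2 ∈ L, ∀ x3 ∈ L, ∀ y1 ∈ L, ∀ y2 ∈ L, FF x1 x2 x3 y1 y2 = 0) :
    APr M A L := by
  set B := Subring.closure (L : Set A) with hB
  set L' : AddSubgroup B := L.comap (B.subtype : B →+ A) with hL'
  have memL' : ∀ x : B, x ∈ L' ↔ (x : A) ∈ L := fun x => Iff.rfl
  have hsub : (L : Set A) ⊆ B := Subring.subset_closure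
  have h3' : (3 : B) = 0 := by
    apply B.subtype_injective
    rw [map_ofNat, map_zero]; exact h3
  have hcl : Subring.closure (L' : Set B) = ⊤ := by
    rw [eq_top_iff]
    intro x _
    have hmap : (Subring.closure (L' : Set B)).map B.subtype = B := by
      rw [RingHom.map_closure]
      have : (B.subtype '' (L' : Set B)) = (L : Set A) := by
        ext z
        constructor
        · rintro ⟨w, hw, rfl⟩; exact hw
        · intro hz; exact ⟨⟨z, hsub hz⟩, hz, rfl⟩
      rw [this]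
    have hx : (x : A) ∈ (Subring.closure (L' : Set B)).map B.subtype := by
      rw [hmap]; exact x.2
    obtain ⟨w, hw, hwx⟩ := hx
    have : w = x := Subtype.ext hwx
    rwa [this] at hw
  intro l hl hp
  have key := H B h3' L' (fun x hx y hy => hL x hx y hy) hcl (by
    intro x1 h1 x2 h2 x3 h3 y1 k1 y2 k2
    apply Subtype.ext
    exact hF x1 h1 x2 h2 x3 h3 y1 k1 y2 k2)
  -- choose the functions
  have hmem : ∀ i : Fin M, l.get (i.cast hl.symm) ∈ l := fun i => List.get_mem _ _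
  have h2S : ∀ i : Fin M, (l.get (i.cast hl.symm)).2 ∈ B := by
    intro i
    obtain ⟨_, x, hx, y, hy, z, hz, e⟩ := hp _ (hmem i)
    rw [e]
    exact hsub (hL _ (hL x hx y hy) z hz)
  have := key (fun i => ⟨(l.get (i.cast hl.symm)).1, (hp _ (hmem i)).1⟩)
    (fun i => ⟨(l.get (i.cast hl.symm)).2, h2S i⟩) (by
      intro i
      obtain ⟨_, x, hx, y, hy, z, hz, e⟩ := hp _ (hmem i)
      refine ⟨⟨x, hsub hx⟩, hx, ⟨y, hsub hy⟩, hy, ⟨z, hsub hz⟩, hz, ?_⟩
      apply Subtype.ext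
      exact e)
  have h2 := congrArg (B.subtype) this
  rw [map_list_prod, List.map_ofFn, map_zero] at h2
  rw [← h2]
  congr 1
  apply List.ext_get
  · simp [hl]
  · intro n h1 h2
    simp

section ff

variable {A : Type*} [Ring A]

theorem SS_swap (a b c d : A) : SS a b c d = SS b a c d := by unfold SS; abel

theorem SS_swap' (a b c d : A) : SS a b c d = SS a b d c := by unfold SS; abel

theorem SS_add (a a' b c d : A) : SS (a + a') b c d = SS a b c d + SS a' b c d := by
  unfold SS bk; noncomm_ring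

theorem SS_add' (a b c c' d : A) : SS a b (c + c') d = SS a b c d + SS a b c' d := by
  unfold SS bk; noncomm_ring

theorem FF_12 (a b c d e : A) : FF a b c d e = FF b a c d e := by
  unfold FF; rw [SS_swap a b d e]; abel

theorem FF_23 (a b c d e : A) : FF a b c d e = FF a c b d e := by
  unfold FF; rw [SS_swap b c d e]; abel

theorem FF_45 (a b c d e : A) : FF a b c d e = FF a b c e d := by
  unfold FF; rw [SS_swap' b c d e, SS_swap' a c d e, SS_swap' a b d e]

theorem FF_add1 (a a' b c d e : A) : FF (a + a') b c d e = FF a b c d e + FF a' b c d e := by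
  unfold FF; rw [SS_add, SS_add]; noncomm_ring

theorem FF_add4 (a b c d d' e : A) : FF a b c (d + d') e = FF a b c d e + FF a b c d' e := by
  unfold FF; rw [SS_add', SS_add', SS_add']; noncomm_ring

/-- additive induction -/
theorem zero_of_add {φ : A → A} (hadd : ∀ x y, φ (x + y) = φ x + φ y) {X : Set A}
    (h : ∀ x ∈ X, φ x = 0) {x : A} (hx : x ∈ AddSubgroup.closure X) : φ x = 0 := by
  have h0 : φ 0 = 0 := by
    have := hadd 0 0
    rw [add_zero] at this
    exact left_eq_add.1 this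
  induction hx using AddSubgroup.closure_induction with
  | mem x hx => exact h x hx
  | zero => exact h0
  | add x y _ _ ihx ihy => rw [hadd, ihx, ihy, add_zero]
  | neg x _ ih =>
    have := hadd x (-x)
    rw [add_neg_cancel, h0, ih, zero_add] at this
    exact this.symm

theorem FF_closure {X : Set A}
    (h : ∀ x1 ∈ X, ∀ x2 ∈ X, ∀ x3 ∈ X, ∀ y1 ∈ X, ∀ y2 ∈ X, FF x1 x2 x3 y1 y2 = 0) :
    ∀ x1 ∈ AddSubgroup.closure X, ∀ x2 ∈ AddSubgroup.closure X,
    ∀ x3 ∈ AddSubgroup.closure X, ∀ y1 ∈ AddSubgroup.closure X,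
    ∀ y2 ∈ AddSubgroup.closure X, FF x1 x2 x3 y1 y2 = 0 := by
  have s1 : ∀ x1 ∈ AddSubgroup.closure X, ∀ x2 ∈ X, ∀ x3 ∈ X, ∀ y1 ∈ X, ∀ y2 ∈ X,
      FF x1 x2 x3 y1 y2 = 0 := by
    intro x1 h1 x2 h2 x3 h3 y1 k1 y2 k2
    exact zero_of_add (φ := fun x => FF x x2 x3 y1 y2) (fun x y => FF_add1 _ _ _ _ _ _)
      (fun x hx => h x hx x2 h2 x3 h3 y1 k1 y2 k2) h1
  have s2 : ∀ x1 ∈ AddSubgroup.closure X, ∀ x2 ∈ AddSubgroup.closure X, ∀ x3 ∈ X,
      ∀ y1 ∈ X, ∀ y2 ∈ X, FF x1 x2 x3 y1 y2 = 0 := by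
    intro x1 h1 x2 h2 x3 h3 y1 k1 y2 k2
    rw [FF_12]
    exact zero_of_add (φ := fun x => FF x x1 x3 y1 y2) (fun x y => FF_add1 _ _ _ _ _ _)
      (fun x hx => by rw [FF_12]; exact s1 x1 h1 x hx x3 h3 y1 k1 y2 k2) h2
  have s3 : ∀ x1 ∈ AddSubgroup.closure X, ∀ x2 ∈ AddSubgroup.closure X,
      ∀ x3 ∈ AddSubgroup.closure X, ∀ y1 ∈ X, ∀ y2 ∈ X, FF x1 x2 x3 y1 y2 = 0 := by
    intro x1 h1 x2 h2 x3 h3 y1 k1 y2 k2
    have e : ∀ x, FF x1 x2 x y1 y2 = FF x x1 x2 y1 y2 := fun x => by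
      rw [FF_23, FF_12]
    rw [e]
    exact zero_of_add (φ := fun x => FF x x1 x2 y1 y2) (fun x y => FF_add1 _ _ _ _ _ _)
      (fun x hx => by rw [← e]; exact s2 x1 h1 x2 h2 x hx y1 k1 y2 k2) h3
  have s4 : ∀ x1 ∈ AddSubgroup.closure X, ∀ x2 ∈ AddSubgroup.closure X,
      ∀ x3 ∈ AddSubgroup.closure X, ∀ y1 ∈ AddSubgroup.closure X, ∀ y2 ∈ X,
      FF x1 x2 x3 y1 y2 = 0 := by
    intro x1 h1 x2 h2 x3 h3 y1 k1 y2 k2
    exact zero_of_add (φ := fun y => FF x1 x2 x3 y y2) (fun x y => FF_add4 _ _ _ _ _ _)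
      (fun y hy => s3 x1 h1 x2 h2 x3 h3 y hy y2 k2) k1
  intro x1 h1 x2 h2 x3 h3 y1 k1 y2 k2
  rw [FF_45]
  exact zero_of_add (φ := fun y => FF x1 x2 x3 y y1) (fun x y => FF_add4 _ _ _ _ _ _)
    (fun y hy => by rw [FF_45]; exact s4 x1 h1 x2 h2 x3 h3 y1 k1 y hy) k2

theorem bk_add (x y z : A) : bk (x + y) z = bk x z + bk y z := by unfold bk; noncomm_ring

theorem bk_neg (x z : A) : bk (-x) z = -bk x z := by unfold bk; noncomm_ring

theorem bk_anti (x y : A) : bk x y = -bk y x := by unfold bk; noncomm_ring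

theorem bk_closure {X : Set A} (h : ∀ x ∈ X, ∀ y ∈ X, bk x y ∈ AddSubgroup.closure X) :
    ∀ x ∈ AddSubgroup.closure X, ∀ y ∈ AddSubgroup.closure X,
      bk x y ∈ AddSubgroup.closure X := by
  have s1 : ∀ x ∈ AddSubgroup.closure X, ∀ y ∈ X, bk x y ∈ AddSubgroup.closure X := by
    intro x hx y hy
    induction hx using AddSubgroup.closure_induction with
    | mem x hx => exact h x hx y hy
    | zero =>
      have : bk (0 : A) y = 0 := by unfold bk; simp
      rw [this]; exact AddSubgroup.zero_mem _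
    | add x x' _ _ ih ih' => rw [bk_add]; exact AddSubgroup.add_mem _ ih ih'
    | neg x _ ih => rw [bk_neg]; exact AddSubgroup.neg_mem _ ih
  intro x hx y hy
  rw [bk_anti]
  apply AddSubgroup.neg_mem
  induction hy using AddSubgroup.closure_induction with
  | mem y hy => rw [bk_anti]; exact AddSubgroup.neg_mem _ (s1 x hx y hy)
  | zero =>
    have : bk (0 : A) x = 0 := by unfold bk; simp
    rw [this]; exact AddSubgroup.zero_mem _
  | add x x' _ _ ih ih' => rw [bk_add]; exact AddSubgroup.add_mem _ ih ih'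
  | neg x _ ih => rw [bk_neg]; exact AddSubgroup.neg_mem _ ih

end ff

section group

variable {G : Type*} [Group G]

theorem cm_eq_one_iff {x y : G} : cm x y = 1 ↔ x * y = y * x := by
  unfold cm
  constructor
  · intro h
    have : x * y = y * x * (x⁻¹ * y⁻¹ * x * y) := by group
    rw [this, h, mul_one]
  · intro h
    have : x⁻¹ * y⁻¹ * x * y = (y * x)⁻¹ * (x * y) := by group
    rw [this, h, inv_mul_cancel]

theorem map_cm {H : Type*} [Group H] (f : G →* H) (x y : G) :
    f (cm x y) = cm (f x) (f y) := by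
  simp [cm]

/-- a group generated by elements whose triple commutators lie in `K` has class at most two
modulo `K` -/
theorem gamma3_le {Y : Set G} (hY : Subgroup.closure Y = ⊤) (K : Subgroup G) [K.Normal]
    (h : ∀ x ∈ Y, ∀ y ∈ Y, ∀ z ∈ Y, cm (cm x y) z ∈ K) :
    ⁅⁅(⊤ : Subgroup G), (⊤ : Subgroup G)⁆, (⊤ : Subgroup G)⁆ ≤ K := by
  set φ := QuotientGroup.mk' K with hφ
  have hker : ∀ t, t ∈ K ↔ φ t = 1 := fun t => by
    rw [← MonoidHom.mem_ker, hφ, QuotientGroup.ker_mk']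
  -- commutators of generators are central modulo K
  have c1 : ∀ x ∈ Y, ∀ y ∈ Y, ∀ z : G, φ (cm x y) * φ z = φ z * φ (cm x y) := by
    intro x hx y hy z
    have hz : z ∈ Subgroup.closure Y := by rw [hY]; trivial
    induction hz using Subgroup.closure_induction with
    | mem z hz =>
      rw [← cm_eq_one_iff, ← map_cm, ← hker]; exact h x hx y hy z hz
    | one => simp
    | mul a b _ _ iha ihb =>
      rw [map_mul, ← mul_assoc, iha, mul_assoc, ihb, mul_assoc]
    | inv a _ ih =>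
      rw [map_inv]
      exact (Commute.inv_right (show Commute (φ (cm x y)) (φ a) from ih))
  -- all commutators are central modulo K
  set ψ := (QuotientGroup.mk' (Subgroup.center (G ⧸ K))).comp φ with hψ
  have hψ1 : ∀ t, ψ t = 1 ↔ φ t ∈ Subgroup.center (G ⧸ K) := fun t => by
    rw [hψ, MonoidHom.comp_apply, QuotientGroup.mk'_apply, QuotientGroup.eq_one_iff]
  have hsurj : Function.Surjective φ := QuotientGroup.mk'_surjective K
  have c2 : ∀ x ∈ Y, ∀ y ∈ Y, ψ x * ψ y = ψ y * ψ x := by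
    intro x hx y hy
    rw [← cm_eq_one_iff, ← map_cm, hψ1, Subgroup.mem_center_iff]
    intro g
    obtain ⟨z, rfl⟩ := hsurj g
    exact (c1 x hx y hy z).symm
  have c3 : ∀ x y : G, ψ x * ψ y = ψ y * ψ x := by
    have s1 : ∀ x ∈ Y, ∀ y : G, Commute (ψ x) (ψ y) := by
      intro x hx y
      have hy : y ∈ Subgroup.closure Y := by rw [hY]; trivial
      induction hy using Subgroup.closure_induction with
      | mem y hy => exact c2 x hx y hy
      | one => simp
      | mul a b _ _ iha ihb => rw [map_mul]; exact iha.mul_right ihb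
      | inv a _ ih => rw [map_inv]; exact ih.inv_right
    intro x y
    have hx : x ∈ Subgroup.closure Y := by rw [hY]; trivial
    show Commute (ψ x) (ψ y)
    induction hx using Subgroup.closure_induction with
    | mem x hx => exact s1 x hx y
    | one => simp
    | mul a b _ _ iha ihb => rw [map_mul]; exact iha.mul_left ihb
    | inv a _ ih => rw [map_inv]; exact ih.inv_left
  have c4 : ⁅(⊤ : Subgroup G), (⊤ : Subgroup G)⁆ ≤ (Subgroup.center (G ⧸ K)).comap φ := by
    rw [Subgroup.commutator_le]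
    intro x _ y _
    rw [Subgroup.mem_comap, ← hψ1, map_commutatorElement, commutatorElement_eq_one_iff_mul_comm]
    exact c3 x y
  rw [Subgroup.commutator_le]
  intro x hx z _
  have := c4 hx
  rw [Subgroup.mem_comap, Subgroup.mem_center_iff] at this
  rw [hker, map_commutatorElement, commutatorElement_eq_one_iff_mul_comm]
  exact (this (φ z)).symm

end group

end Pool.Agent.Lib.MP_107960_al.H17
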