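import Pool.Agent.Lib.MP_107960_al.H17.RingMain

set_option autoImplicit false

open scoped commutatorElement

namespace Pool.Agent.Lib.MP_107960_al.H17

universe u

/-- iterated commutator `[L,T,...,T]` (`n` times) -/
def itc {G : Type*} [Group G] (L T : Subgroup G) : ℕ → Subgroup G
  | 0 => L
  | n + 1 => ⁅itc L T n, T⁆

/-- `γ₃(G)` -/
def g3 (G : Type*) [Group G] : Subgroup G :=
  ⁅⁅(⊤ : Subgroup G), (⊤ : Subgroup G)⁆, (⊤ : Subgroup G)⁆

variable {G : Type u} [Group G]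

theorem abelian_step {M : ℕ} (H : APrime.{u} M) (law : ∀ x y : G, (cm x y) ^ 3 = 1)
    (L : Subgroup G) [L.Normal] (hcomm : ∀ x ∈ L, ∀ y ∈ L, x * y = y * x)
    (hexp : ∀ x ∈ L, x ^ 3 = 1) (Y : Set G) (hY : Subgroup.closure Y = ⊤)
    (hcm : ∀ y ∈ Y, ∀ g : G, Commute y (g⁻¹ * y * g)) :
    itc L (g3 G) M ≤ ⊥ := by
  let _ : CommGroup L :=
    { (inferInstance : Group L) with
      mul_comm := fun x y => Subtype.ext (hcomm x x.2 y y.2) }
  let ρ : G → AddMonoid.End (Additive L) := fun g =>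
    MonoidHom.toAdditive ((MulAut.conjNormal g : MulAut L) : L →* L)
  let val : Additive L → G := fun v => ((Additive.toMul v : L) : G)
  have val_inj : ∀ u w : Additive L, val u = val w → u = w := by
    intro u w h
    exact Additive.toMul.injective (Subtype.ext h)
  have val_add : ∀ u w : Additive L, val (u + w) = val u * val w := fun u w => rfl
  have val_neg : ∀ u : Additive L, val (-u) = (val u)⁻¹ := fun u => rfl
  have val_zero : val 0 = 1 := rfl
  have val_mem : ∀ u, val u ∈ L := fun u => (Additive.toMul u : L).2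
  have val_ρ : ∀ g u, val (ρ g u) = g * val u * g⁻¹ := fun g u => rfl
  have hext : ∀ X Y : AddMonoid.End (Additive L), (∀ u, val (X u) = val (Y u)) → X = Y :=
    fun X Y h => DFunLike.ext _ _ fun u => val_inj _ _ (h u)
  have ρ_one : ρ 1 = 1 := by
    refine hext _ _ fun u => ?_
    rw [val_ρ]
    change 1 * val u * 1⁻¹ = val u
    simp
  have ρ_mul : ∀ g h, ρ (g * h) = ρ g * ρ h := by
    intro g h
    refine hext _ _ fun u => ?_
    change val (ρ (g * h) u) = val (ρ g (ρ h u))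
    rw [val_ρ, val_ρ, val_ρ]; group
  let π : G →* (AddMonoid.End (Additive L))ᵐᵒᵖ :=
    { toFun := fun g => MulOpposite.op (ρ g⁻¹)
      map_one' := by rw [inv_one, ρ_one]; rfl
      map_mul' := by
        intro g h
        rw [mul_inv_rev, ρ_mul]; rfl }
  have h3' : (3 : AddMonoid.End (Additive L)) = 0 := by
    refine hext _ _ fun u => ?_
    have e : (3 : AddMonoid.End (Additive L)) = 1 + 1 + 1 := by norm_num
    rw [e]
    change val (u + u + u) = 1
    rw [val_add, val_add]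
    have := hexp (val u) (val_mem u)
    rw [← this]; simp only [pow_succ, pow_zero, one_mul]
  have h3 : (3 : (AddMonoid.End (Additive L))ᵐᵒᵖ) = 0 := by
    have : (3 : (AddMonoid.End (Additive L))ᵐᵒᵖ)
        = MulOpposite.op (3 : AddMonoid.End (Additive L)) := rfl
    rw [this, h3']; rfl
  have hρ : ∀ g h : G, (1 + ρ (g * h⁻¹ * g⁻¹ * h)⁻¹ + ρ (g * h⁻¹ * g⁻¹ * h)) * (ρ h⁻¹ - 1) = 0 := by
    intro g h
    set κ := g * h⁻¹ * g⁻¹ * h with hκ
    have hκ3 : κ ^ 3 = 1 := by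
      have := law g⁻¹ h
      rw [cm, inv_inv] at this
      exact this
    have hκi : κ⁻¹ = κ * κ := by
      rw [inv_eq_iff_mul_eq_one, ← hκ3]; simp only [pow_succ, pow_zero, one_mul, mul_assoc]
    have hKKK : ρ κ * ρ κ * ρ κ = 1 := by
      rw [← ρ_mul, ← ρ_mul, ← ρ_one, ← hκ3]; simp only [pow_succ, pow_zero, one_mul]
    have e1 : (1 + ρ κ + ρ κ * ρ κ) * (1 - ρ κ * ρ h⁻¹) = 0 := by
      refine hext _ _ fun u => ?_
      set m := (1 - ρ κ * ρ h⁻¹) u with hm
      have hmv : val m = val u * (κ * (h⁻¹ * val u * h) * κ⁻¹)⁻¹ := by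
        have : m = u + -(ρ κ (ρ h⁻¹ u)) := by rw [hm, ← sub_eq_add_neg]; rfl
        rw [this, val_add, val_neg, val_ρ, val_ρ, inv_inv]
      have e2 : ((1 + ρ κ + ρ κ * ρ κ) * (1 - ρ κ * ρ h⁻¹)) u = m + ρ κ m + ρ κ (ρ κ m) := rfl
      rw [e2]
      change val (m + ρ κ m + ρ κ (ρ κ m)) = 1
      rw [val_add, val_add, val_ρ, val_ρ, val_ρ]
      have e3 : val m * κ = cm (val u * g)⁻¹ h := by
        rw [hmv, cm, hκ]; group
      have e4 : (val m * κ) ^ 3 = 1 := by rw [e3]; exact law _ _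
      have e5 : val m * (κ * val m * κ⁻¹) * (κ * (κ * val m * κ⁻¹) * κ⁻¹)
          = (val m * κ) ^ 3 * (κ ^ 3)⁻¹ := by
        simp only [pow_succ, pow_zero, one_mul]; group
      rw [e5, e4, hκ3]; simp
    have e6 : (1 + ρ κ⁻¹ + ρ κ) * (ρ h⁻¹ - 1)
        = -((1 + ρ κ + ρ κ * ρ κ) * (1 - ρ κ * ρ h⁻¹))
          + (1 - ρ κ * ρ κ * ρ κ) * ρ h⁻¹ := by
      rw [hκi, ρ_mul]
      generalize ρ κ = K
      generalize ρ h⁻¹ = H
      simp only [mul_sub, sub_mul, add_mul, mul_add, mul_one, one_mul, mul_assoc]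
      abel
    rw [e6, e1, hKKK]; simp
  have hπ : ∀ g h : G, (π h - 1) * (1 + π (g * h⁻¹ * g⁻¹ * h) + π (g * h⁻¹ * g⁻¹ * h)⁻¹) = 0 := by
    intro g h
    have e1 := hρ g h
    have e2 : (π h - 1) * (1 + π (g * h⁻¹ * g⁻¹ * h) + π (g * h⁻¹ * g⁻¹ * h)⁻¹)
        = MulOpposite.op ((1 + ρ (g * h⁻¹ * g⁻¹ * h)⁻¹ + ρ ((g * h⁻¹ * g⁻¹ * h)⁻¹)⁻¹)
          * (ρ h⁻¹ - 1)) := rfl
    rw [e2, inv_inv, e1]; rfl
  have linlaw : LinLaw π := by
    intro g h
    have e := hπ h⁻¹ g
    have ec : h⁻¹ * g⁻¹ * (h⁻¹)⁻¹ * g = (cm g h)⁻¹ := by unfold cm; group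
    rw [ec, inv_inv] at e
    set c := cm g h with hc
    have c3 : c ^ 3 = 1 := law g h
    have ci : c⁻¹ = c * c := by
      rw [inv_eq_iff_mul_eq_one, ← c3]; simp only [pow_succ, pow_zero, one_mul, mul_assoc]
    rw [ci, map_mul] at e
    have aux : ∀ P C : (AddMonoid.End (Additive L))ᵐᵒᵖ, (P - 1) * ((C - 1) * (C - 1))
        = (P - 1) * (1 + C * C + C) - 3 * ((P - 1) * C) := by
      intro P C
      have e3 : (3 : (AddMonoid.End (Additive L))ᵐᵒᵖ) = 1 + 1 + 1 := by norm_num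
      rw [e3]
      simp only [mul_sub, sub_mul, add_mul, mul_add, mul_one, one_mul, mul_assoc]
      abel
    rw [aux, e, h3]; simp
  have hsq : ∀ y ∈ Y, ∀ g : G, (π y - 1) * π g * (π y - 1) = 0 := by
    intro y hy g
    have e2 : (π y - 1) * π g * (π y - 1)
        = MulOpposite.op ((ρ y⁻¹ - 1) * (ρ g⁻¹ * (ρ y⁻¹ - 1))) := rfl
    have e3 : (ρ y⁻¹ - 1) * (ρ g⁻¹ * (ρ y⁻¹ - 1)) = 0 := by
      refine hext _ _ fun u => ?_
      set m := ρ g⁻¹ (ρ y⁻¹ u + -u) with hm
      have : ((ρ y⁻¹ - 1) * (ρ g⁻¹ * (ρ y⁻¹ - 1))) u = ρ y⁻¹ m + -m := by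
        have e4 : ((ρ y⁻¹ - 1) * (ρ g⁻¹ * (ρ y⁻¹ - 1))) u
          = ρ y⁻¹ (ρ g⁻¹ (ρ y⁻¹ u - u)) - ρ g⁻¹ (ρ y⁻¹ u - u) := rfl
        rw [e4, hm, sub_eq_add_neg, sub_eq_add_neg]
      rw [this]
      change val (ρ y⁻¹ m + -m) = 1
      rw [val_add, val_neg, val_ρ]
      have hv : val m = (g⁻¹ * y * g)⁻¹ * (((val u)⁻¹ * g)⁻¹ * y * ((val u)⁻¹ * g)) := by
        rw [hm, val_ρ, val_add, val_neg, val_ρ]; group
      have hcom : Commute y (val m) := by
        rw [hv]
        exact (hcm y hy g).inv_right.mul_right (hcm y hy _)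
      rw [inv_inv, mul_assoc, mul_assoc, ← mul_assoc (val m), ← hcom.eq]
      group
    rw [e2, e3]; rfl
  -- the ring theoretic statement
  have main := fun l hl hc => ring_main H _ h3 π linlaw Y hY hsq l hl hc
  -- action of a product
  have key : ∀ n : ℕ, n ≤ M → ∀ x ∈ itc L (g3 G) n, ∃ hx : x ∈ L,
      ∀ l : List ((AddMonoid.End (Additive L))ᵐᵒᵖ), l.length + n = M →
        (∀ z ∈ l, ∃ c ∈ g3 G, z = π c - 1) →
        (l.prod).unop (Additive.ofMul (⟨x, hx⟩ : L)) = 0 := by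
    intro n
    induction n with
    | zero =>
      intro _ x hx
      refine ⟨hx, fun l hl hc => ?_⟩
      rw [main l (by simpa using hl) hc]; rfl
    | succ n ih =>
      intro hn
      have ih' := ih (by omega)
      -- the subgroup of good elements
      let W : Subgroup G :=
        { carrier := {x | ∃ hx : x ∈ L,
            ∀ l : List ((AddMonoid.End (Additive L))ᵐᵒᵖ), l.length + (n + 1) = M →
              (∀ z ∈ l, ∃ c ∈ g3 G, z = π c - 1) →
              (l.prod).unop (Additive.ofMul (⟨x, hx⟩ : L)) = 0}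
          one_mem' := ⟨L.one_mem, fun l _ _ => by
            have : Additive.ofMul (⟨1, L.one_mem⟩ : L) = 0 := rfl
            rw [this, map_zero]⟩
          mul_mem' := by
            rintro a b ⟨ha, ha'⟩ ⟨hb, hb'⟩
            refine ⟨L.mul_mem ha hb, fun l hl hc => ?_⟩
            have : Additive.ofMul (⟨a * b, L.mul_mem ha hb⟩ : L)
              = Additive.ofMul (⟨a, ha⟩ : L) + Additive.ofMul (⟨b, hb⟩ : L) := rfl
            rw [this, map_add, ha' l hl hc, hb' l hl hc, add_zero]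
          inv_mem' := by
            rintro a ⟨ha, ha'⟩
            refine ⟨L.inv_mem ha, fun l hl hc => ?_⟩
            have : Additive.ofMul (⟨a⁻¹, L.inv_mem ha⟩ : L)
              = -Additive.ofMul (⟨a, ha⟩ : L) := rfl
            rw [this, map_neg, ha' l hl hc, neg_zero] }
      have hle : ⁅itc L (g3 G) n, g3 G⁆ ≤ W := by
        rw [Subgroup.commutator_le]
        intro x hx c hc
        obtain ⟨hxL, hx'⟩ := ih' x hx
        have hnorm : c * x⁻¹ * c⁻¹ ∈ L := (inferInstance : L.Normal).conj_mem _ (L.inv_mem hxL) c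
        have hmem : ⁅x, c⁆ ∈ L := by
          have : ⁅x, c⁆ = x * (c * x⁻¹ * c⁻¹) := by rw [commutatorElement_def]; group
          rw [this]; exact L.mul_mem hxL hnorm
        refine ⟨hmem, fun l hl hz => ?_⟩
        have h1 := hx' ((π c⁻¹ - 1) :: l) (by rw [List.length_cons]; omega) (by
          intro z hz'
          rcases List.mem_cons.1 hz' with hz' | hz'
          · exact ⟨c⁻¹, (g3 G).inv_mem hc, hz'⟩
          · exact hz z hz')
        rw [List.prod_cons] at h1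
        set v : Additive L := Additive.ofMul (⟨x, hxL⟩ : L) with hv
        have e1 : (MulOpposite.unop ((π c⁻¹ - 1) * l.prod) : AddMonoid.End (Additive L)) v
            = (MulOpposite.unop l.prod : AddMonoid.End (Additive L)) (ρ (c⁻¹)⁻¹ v - v) := rfl
        rw [e1, inv_inv] at h1
        have e2 : Additive.ofMul (⟨⁅x, c⁆, hmem⟩ : L) = -(ρ c v - v) := by
          apply val_inj
          rw [val_neg, sub_eq_add_neg, val_add, val_neg, val_ρ]
          change ⁅x, c⁆ = (c * x * c⁻¹ * x⁻¹)⁻¹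
          rw [commutatorElement_def]; group
        rw [e2, map_neg, h1, neg_zero]
      intro x hx
      exact hle hx
  intro x hx
  obtain ⟨hxL, hx'⟩ := key M le_rfl x hx
  have := hx' [] (by simp) (by simp)
  have e : Additive.ofMul (⟨x, hxL⟩ : L) = 0 := this
  have e2 := congrArg val e
  rw [Subgroup.mem_bot]
  exact e2

theorem itc_map {H : Type*} [Group H] (φ : G →* H) (L T : Subgroup G) (n : ℕ) :
    (itc L T n).map φ = itc (L.map φ) (T.map φ) n := by
  induction n with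
  | zero => rfl
  | succ n ih =>
    show (⁅itc L T n, T⁆).map φ = ⁅itc (L.map φ) (T.map φ) n, T.map φ⁆
    rw [Subgroup.map_commutator, ih]

theorem g3_map {H : Type*} [Group H] (φ : G →* H) (hφ : Function.Surjective φ) :
    (g3 G).map φ = g3 H := by
  unfold g3
  rw [Subgroup.map_commutator, Subgroup.map_commutator, Subgroup.map_top_of_surjective φ hφ]

/-- the section version -/
theorem section_step {M : ℕ} (H : APrime.{u} M) (law : ∀ x y : G, (cm x y) ^ 3 = 1)
    (K L : Subgroup G) [K.Normal] [hL : L.Normal] (hc : ⁅L, L⁆ ≤ K)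
    (he : ∀ x ∈ L, x ^ 3 ∈ K) (Y : Set G) (hY : Subgroup.closure Y = ⊤)
    (hcm : ∀ y ∈ Y, ∀ g : G, Commute y (g⁻¹ * y * g)) :
    itc L (g3 G) M ≤ K := by
  set φ := QuotientGroup.mk' K with hφ
  have hsurj : Function.Surjective φ := QuotientGroup.mk'_surjective K
  have hker : ∀ t, t ∈ K ↔ φ t = 1 := fun t => by
    rw [← MonoidHom.mem_ker, hφ, QuotientGroup.ker_mk']
  have law' : ∀ x y : G ⧸ K, (cm x y) ^ 3 = 1 := by
    intro x y
    obtain ⟨x, rfl⟩ := hsurj x
    obtain ⟨y, rfl⟩ := hsurj y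
    rw [← map_cm, ← map_pow, law, map_one]
  have hLn : (L.map φ).Normal := hL.map φ hsurj
  have hcomm : ∀ x ∈ L.map φ, ∀ y ∈ L.map φ, x * y = y * x := by
    rintro _ ⟨x, hx, rfl⟩ _ ⟨y, hy, rfl⟩
    have : ⁅x, y⁆ ∈ K := hc (Subgroup.commutator_mem_commutator hx hy)
    rw [hker, map_commutatorElement, commutatorElement_eq_one_iff_mul_comm] at this
    exact this
  have hexp : ∀ x ∈ L.map φ, x ^ 3 = 1 := by
    rintro _ ⟨x, hx, rfl⟩
    rw [← map_pow, ← hker]
    exact he x hx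
  have hY' : Subgroup.closure (φ '' Y) = ⊤ := by
    rw [← MonoidHom.map_closure, hY, Subgroup.map_top_of_surjective φ hsurj]
  have hcm' : ∀ y ∈ φ '' Y, ∀ g : G ⧸ K, Commute y (g⁻¹ * y * g) := by
    rintro _ ⟨y, hy, rfl⟩ g
    obtain ⟨g, rfl⟩ := hsurj g
    rw [← map_inv, ← map_mul, ← map_mul]
    exact (hcm y hy g).map φ
  have := abelian_step H law' (L.map φ) hcomm hexp (φ '' Y) hY' hcm'
  rw [← g3_map φ hsurj, ← itc_map] at this
  intro x hx
  rw [hker]
  exact this (Subgroup.mem_map_of_mem φ hx)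

end Pool.Agent.Lib.MP_107960_al.H17
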